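import Mathlib
import Pool.Agent.H42.Fw1

open Pool.Agent.H42.FwDefs

/-- If the dominating number is `ℵ₁`, some tree is Lindelöf in the fine wedge topology while its
square is not. -/
theorem Pool.Agent.Results.MP_2757db_lc.Cons.result (h : DomAleph1) :
    ∃ (T : Type) (_ : PartialOrder T), IsForest T ∧
      LindelofSpace (FW T) ∧ ¬ LindelofSpace (FW T × FW T) :=
  Pool.Agent.H42.Fw1.main h
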